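import Pool.Agent.H225.Par.Par
import Pool.Agent.H985.Par.StmParG

/-!
# Chowla phase 4 (helper985), task PARG (helper721): parity in sifted sets in residue classes,
partial sieves
-/

set_option autoImplicit false
set_option linter.unusedSectionVars false

open scoped Classical
open Polynomial

namespace Pool.Agent.H721.ParG

open Pool.Agent.H985.Chow (mob MD)
open Pool.Agent.H985.KP (mobg)
open Pool.Agent.H985.Par
open Pool.Agent.H694.Typ (Mn mem_Mn card_Mn PU mem_PU sum_deg_le wt)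
open Pool.Agent.H985.Chow.Asm (G G_inj G_add G_surj ta tb mem_deg G_mem mem_G card_deg
  window_finsum sum_MD MD_finite instFD mem_of_natDegree_lt natDegree_lt_of_mem abs_mob)
open Pool.Agent.H225.Par

/-! ### preparations -/

section prep

variable {K : Type} [Field K] [Fintype K]

/-- enumeration of a finite set of coordinates -/
lemma reidx {k : ℕ} (S : Finset (Fin k)) : ∃ e : Fin S.card → Fin k, Function.Injective e ∧
    (∀ p : Fin k → Prop, (∀ i ∈ S, p i) ↔ ∀ j, p (e j)) ∧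
    ∀ h : Fin k → ℝ, ∏ i ∈ S, h i = ∏ j, h (e j) := by
  refine ⟨fun j => (S.equivFin.symm j : Fin k), fun j j' h =>
    S.equivFin.symm.injective (Subtype.ext h), ?_, ?_⟩
  · intro p
    constructor
    · intro h j
      exact h _ (S.equivFin.symm j).2
    · intro h i hi
      have h1 : p (S.equivFin.symm (S.equivFin ⟨i, hi⟩) : Fin k) := h (S.equivFin ⟨i, hi⟩)
      rw [Equiv.symm_apply_apply] at h1
      exact h1
  · intro h
    rw [← Finset.prod_coe_sort S h, ← Equiv.prod_comp S.equivFin.symm]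

/-- the primes of degree at most `m` which do not divide `Q` -/
noncomputable def PQ (K : Type) [Field K] [Fintype K] (Q : K[X]) (m : ℕ) : Finset K[X] :=
  (PU K m).filter (fun P => ¬ P ∣ Q)

lemma mem_PQ {Q : K[X]} {m : ℕ} {P : K[X]} :
    P ∈ PQ K Q m ↔ (P.Monic ∧ Irreducible P ∧ P.natDegree ≤ m) ∧ ¬ P ∣ Q := by
  unfold PQ
  rw [Finset.mem_filter, mem_PU]

/-- the indicator function of the sifted residue class -/
noncomputable def inG {k : ℕ} (Q r : K[X]) (Ps : Finset K[X]) (β : K[X] → Fin k → K[X])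
    (x : K[X]) : ℝ := if Q ∣ x - r then ind Ps β x else 0

lemma inG_nonneg {k : ℕ} (Q r : K[X]) (Ps : Finset K[X]) (β : K[X] → Fin k → K[X]) (x : K[X]) :
    0 ≤ inG Q r Ps β x := by
  unfold inG
  split_ifs
  · exact ind_nonneg _ _ _
  · exact le_rfl

lemma inG_le {k : ℕ} (Q r : K[X]) (Ps : Finset K[X]) (β : K[X] → Fin k → K[X]) (x : K[X]) :
    inG Q r Ps β x ≤ ind Ps β x := by
  unfold inG
  split_ifs
  · exact le_rfl
  · exact ind_nonneg _ _ _

lemma abs_mobg (g f : K[X]) : |(mobg g f : ℝ)| ≤ 1 := by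
  unfold mobg
  split_ifs
  · exact abs_mob _
  · simp

lemma abs_prod_mobg {k : ℕ} (g f : Fin k → K[X]) : |∏ i, (mobg (g i) (f i) : ℝ)| ≤ 1 := by
  rw [Finset.abs_prod]
  exact Finset.prod_le_one (fun i _ => abs_nonneg _) (fun i _ => abs_mobg _ _)

lemma sift_iff [CharP K 2] {k : ℕ} (α : Fin k → K[X]) (A : Finset (Fin k)) {kA : ℕ}
    (e : Fin kA → Fin k) (he : ∀ p : Fin k → Prop, (∀ i ∈ A, p i) ↔ ∀ j, p (e j)) (Q : K[X])
    (m : ℕ) (f : K[X]) :
    (∀ i ∈ A, ∀ P : K[X], P.Monic → Irreducible P → ¬ P ∣ Q → P ∣ f + α i → m < P.natDegree) ↔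
      Sd (PQ K Q m) (fun _ j => α (e j)) f := by
  rw [he]
  constructor
  · intro h P hP i hi
    rw [mem_PQ] at hP
    rw [CharTwo.sub_eq_add] at hi
    have := h i P hP.1.1 hP.1.2.1 hP.2 hi
    omega
  · intro h i P h1 h2 h3 h4
    by_contra h5
    apply h P (mem_PQ.2 ⟨⟨h1, h2, by omega⟩, h3⟩) i
    rw [CharTwo.sub_eq_add]
    exact h4

lemma sum_SfsG [CharP K 2] {k : ℕ} (α : Fin k → K[X]) (A : Finset (Fin k)) {kA : ℕ}
    (e : Fin kA → Fin k) (he : ∀ p : Fin k → Prop, (∀ i ∈ A, p i) ↔ ∀ j, p (e j)) (Q r : K[X])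
    (n m : ℕ) (T : K[X] → ℝ) :
    ∑ f ∈ SfsG K α A Q r n m, T f =
      ∑ f ∈ Mn K n, inG Q r (PQ K Q m) (fun _ j => α (e j)) f * T f := by
  unfold SfsG
  rw [Finset.sum_filter]
  refine Finset.sum_congr rfl fun f _ => ?_
  have hiff := sift_iff α A e he Q m f
  unfold inG ind
  by_cases h1 : Q ∣ f - r
  · by_cases h : Sd (PQ K Q m) (fun _ j => α (e j)) f
    · rw [if_pos h1, if_pos h, if_pos ⟨h1, hiff.2 h⟩, one_mul]
    · rw [if_pos h1, if_neg h, if_neg (fun h2 => h (hiff.1 h2.2)), zero_mul]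
  · rw [if_neg h1, if_neg (fun h2 => h1 h2.1), zero_mul]

lemma card_SfsG [CharP K 2] {k : ℕ} (α : Fin k → K[X]) (A : Finset (Fin k)) {kA : ℕ}
    (e : Fin kA → Fin k) (he : ∀ p : Fin k → Prop, (∀ i ∈ A, p i) ↔ ∀ j, p (e j)) (Q r : K[X])
    (n m : ℕ) :
    ((SfsG K α A Q r n m).card : ℝ) =
      ∑ f ∈ Mn K n, inG Q r (PQ K Q m) (fun _ j => α (e j)) f := by
  have h := sum_SfsG α A e he Q r n m (fun _ => 1)
  rw [Finset.sum_const, nsmul_eq_mul, mul_one] at h
  rw [h]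
  exact Finset.sum_congr rfl fun f _ => mul_one _

/-- the monic polynomials in a residue class -/
lemma sum_res (n : ℕ) (Q r : K[X]) (hQ : Q ≠ 0) (hn : Q.natDegree < n) : ∃ a₀ : K[X],
    ∀ h : K[X] → ℝ, ∑ f ∈ Mn K n, (if Q ∣ f - r then h f else 0) =
      ∑ u : degreeLT K (n - Q.natDegree), h (a₀ + Q * (u : K[X])) := by
  obtain ⟨ρ, hρ⟩ : ∃ ρ, ρ = (X ^ n - r) % Q := ⟨_, rfl⟩
  have hρd : ρ.degree < Q.degree := by rw [hρ]; exact EuclideanDomain.mod_lt _ hQ
  have hρn : ρ.degree < (n : WithBot ℕ) := by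
    refine hρd.trans ?_
    rw [degree_eq_natDegree hQ]
    exact_mod_cast hn
  have hdiv : Q ∣ (X ^ n - ρ) - r := by
    have h1 := EuclideanDomain.div_add_mod (X ^ n - r) Q
    rw [← hρ] at h1
    refine ⟨(X ^ n - r) / Q, ?_⟩
    linear_combination -h1
  refine ⟨X ^ n - ρ, ?_⟩
  intro h
  rw [← Finset.sum_filter]
  have h1 : (Mn K n).filter (fun f => Q ∣ f - r) =
      (Finset.univ : Finset (degreeLT K (n - Q.natDegree))).image
      (fun u : degreeLT K (n - Q.natDegree) => X ^ n - ρ + Q * (u : K[X])) := by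
    ext f
    rw [Finset.mem_filter, mem_Mn, Finset.mem_image]
    constructor
    · rintro ⟨⟨h1, h2⟩, h3⟩
      have h4 : Q ∣ f - (X ^ n - ρ) := by
        have h5 := dvd_sub h3 hdiv
        have h6 : f - r - (X ^ n - ρ - r) = f - (X ^ n - ρ) := by ring
        rwa [h6] at h5
      obtain ⟨u, hu⟩ := h4
      have hd : (f - (X ^ n - ρ)).degree < (n : WithBot ℕ) := by
        have h5 : f - (X ^ n - ρ) = (f - X ^ n) + ρ := by ring
        rw [h5]
        refine lt_of_le_of_lt (degree_add_le _ _) (max_lt ?_ hρn)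
        rw [degree_lt_iff_coeff_zero]
        intro i hi
        rw [coeff_sub, coeff_X_pow]
        split_ifs with h6
        · rw [h6, ← h2, Monic.coeff_natDegree h1, sub_self]
        · rw [coeff_eq_zero_of_natDegree_lt (by omega), sub_zero]
      refine ⟨⟨u, ?_⟩, Finset.mem_univ _, ?_⟩
      · apply mem_of_natDegree_lt
        by_cases hu0 : u = 0
        · exact Or.inl hu0
        · right
          rw [hu, degree_eq_natDegree (mul_ne_zero hQ hu0), natDegree_mul hQ hu0] at hd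
          have h7 : Q.natDegree + u.natDegree < n := by exact_mod_cast hd
          omega
      · show X ^ n - ρ + Q * u = f
        rw [← hu]
        ring
    · rintro ⟨u, -, rfl⟩
      have h2 : (-ρ + Q * (u : K[X])).degree < (n : WithBot ℕ) := by
        refine lt_of_le_of_lt (degree_add_le _ _) (max_lt (by rw [degree_neg]; exact hρn) ?_)
        by_cases hu0 : (u : K[X]) = 0
        · rw [hu0, mul_zero, degree_zero]
          exact WithBot.bot_lt_coe _
        · have h3 := natDegree_lt_of_mem u.2 hu0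
          rw [degree_eq_natDegree (mul_ne_zero hQ hu0), natDegree_mul hQ hu0]
          exact_mod_cast (by omega : Q.natDegree + (u : K[X]).natDegree < n)
      have h4 : X ^ n - ρ + Q * (u : K[X]) = X ^ n + (-ρ + Q * (u : K[X])) := by ring
      refine ⟨⟨?_, ?_⟩, ?_⟩
      · rw [h4]
        exact monic_X_pow_add h2
      · rw [h4]
        have h3 := degree_add_eq_left_of_degree_lt (p := (X ^ n : K[X]))
          (q := (-ρ + Q * (u : K[X]))) (by rw [degree_X_pow]; exact h2)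
        rw [natDegree_eq_of_degree_eq h3, natDegree_X_pow]
      · have h5 : X ^ n - ρ + Q * (u : K[X]) - r = (X ^ n - ρ - r) + Q * (u : K[X]) := by ring
        rw [h5]
        exact dvd_add hdiv (dvd_mul_right _ _)
  rw [h1, Finset.sum_image]
  intro u _ u' _ huu
  apply Subtype.ext
  have h2 : X ^ n - ρ + Q * (u : K[X]) = X ^ n - ρ + Q * (u' : K[X]) := huu
  exact mul_left_cancel₀ hQ (add_left_cancel h2)

end prep

section block

variable {K : Type} [Field K] [Fintype K] [CharP K 2]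

/-- the bound for a typical fibre -/
theorem fibreG {kA kS B : ℕ} {ε : ℝ} (hε : 0 < ε) (hε8 : ε ≤ 1 / 8) (hB : SWC K kA ε B)
    (n m : ℕ) (hm : 1 ≤ m) (Q r : K[X]) (hQ : Q ≠ 0) (hQm : Q.natDegree ≤ m)
    (s t : Fin kA → K[X]) (s' t' g : Fin kS → K[X]) (hg : ∀ j, (g j).Monic ∧ g j ∣ Q)
    (κ c : ℝ) (hκ8 : κ ≤ 1 / 8)
    (w : K[X] → ℝ) (hw : ∀ f, |w f| ≤ 1)
    (hχ : ∀ f, ∃ χ : AddChar K[X] ℝ, ∀ u, (2 * (Q * u).natDegree : ℝ) ≤ (1 - κ) * n →
      w (f + (Q * u) ^ 2) = w f * χ u)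
    (hadm : ∀ P ∈ PQ K Q m, ∃ r, ∀ i, ¬ P ∣ r - G (s i) (t i))
    (v' : K[X]) (hv' : v' ∈ degreeLT K (n / 2)) (b : K[X]) (hb : b = tb K n + v')
    (E : K[X]) (hE : E.Monic) (hEd : (E.natDegree : ℝ) ≤ κ * n)
    (hEP : ∀ P ∈ PU K m, (∃ j : Fin kS, P ∣ b + t' j) → P ∣ E)
    (hfib : FibC K κ c n s' t' {P : K[X] | P ∈ PU K m} b E)
    (hBm : (B * m + Q.natDegree : ℝ) ≤ κ * n) (hκn : 1 ≤ κ * n)
    (hsmall : 2 * ((kA + 1 : ℝ) * Fintype.card K) ^ (B * m) * (Fintype.card K : ℝ) ^ (-(c * n)) ≤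
      ε * vf (PQ K Q m) (fun _ i => G (s i) (t i))) :
    |∑ v : degreeLT K ((n + 1) / 2),
        inG Q r (PQ K Q m) (fun _ i => G (s i) (t i)) (G (ta K n + (v : K[X])) b) *
        (w (G (ta K n + (v : K[X])) b) *
        ∏ j, (mobg (g j) (G (ta K n + (v : K[X])) b + G (s' j) (t' j)) : ℝ))| ≤
      4 * ε * ∑ v : degreeLT K ((n + 1) / 2),
        inG Q r (PQ K Q m) (fun _ i => G (s i) (t i)) (G (ta K n + (v : K[X])) b) := by
  have hq1 : (1 : ℝ) < Fintype.card K := by exact_mod_cast Fintype.one_lt_card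
  have hq0 : (0 : ℝ) < Fintype.card K := by linarith
  have hn0 : (0 : ℝ) ≤ n := Nat.cast_nonneg _
  have hn8 : (8 : ℝ) ≤ n := by nlinarith
  have hdQ0 : (0 : ℝ) ≤ Q.natDegree := Nat.cast_nonneg _
  have hBm0 : (0 : ℝ) ≤ B * m := by positivity
  obtain ⟨N1, hN1⟩ : ∃ N1, N1 = ⌊(1 - κ) * n / 2⌋₊ := ⟨_, rfl⟩
  have hx0 : 0 ≤ (1 - κ) * n / 2 := by
    have : 0 ≤ (1 - κ) * n := mul_nonneg (by linarith) hn0
    linarith
  have hN1a : (N1 : ℝ) ≤ (1 - κ) * n / 2 := by rw [hN1]; exact Nat.floor_le hx0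
  have hN1b : (1 - κ) * n / 2 < N1 + 1 := by rw [hN1]; exact Nat.lt_floor_add_one _
  have hκn8 : κ * n ≤ n / 8 := by nlinarith
  have hEN : E.natDegree + Q.natDegree + B * m ≤ N1 := by
    have h1 : ((E.natDegree + Q.natDegree + B * m : ℕ) : ℝ) ≤ N1 := by
      push_cast
      nlinarith
    exact_mod_cast h1
  have hE0 : E ≠ 0 := hE.ne_zero
  obtain ⟨M₁, hM₁⟩ : ∃ M₁, M₁ = E * Q := ⟨_, rfl⟩
  have hM0 : M₁ ≠ 0 := by rw [hM₁]; exact mul_ne_zero hE0 hQ
  have hMd : M₁.natDegree = E.natDegree + Q.natDegree := by rw [hM₁, natDegree_mul hE0 hQ]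
  have hQM : Q ∣ M₁ := by rw [hM₁]; exact dvd_mul_left _ _
  have hEM : E ∣ M₁ := by rw [hM₁]; exact dvd_mul_right _ _
  obtain ⟨L, hL⟩ : ∃ L, L = N1 - M₁.natDegree := ⟨_, rfl⟩
  have hEL : M₁.natDegree + L = N1 := by omega
  have hAL : B * m ≤ L := by omega
  have hN1N : N1 ≤ (n + 1) / 2 := by
    have h1 : 2 * (N1 : ℝ) ≤ n := by nlinarith
    have h2 : 2 * N1 ≤ n := by exact_mod_cast h1
    omega
  have hEm : ∀ u ∈ degreeLT K L, M₁ * u ∈ degreeLT K ((n + 1) / 2) := by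
    intro u hu
    apply mem_of_natDegree_lt
    by_cases hu0 : u = 0
    · left
      rw [hu0, mul_zero]
    · right
      have h1 := natDegree_lt_of_mem hu hu0
      rw [natDegree_mul hM0 hu0]
      omega
  have hPU : ∀ P ∈ PQ K Q m, P.Monic ∧ Irreducible P := fun P hP =>
    ⟨(mem_PQ.1 hP).1.1, (mem_PQ.1 hP).1.2.1⟩
  apply avg2 ((n + 1) / 2) L M₁ hEm
    (fun x => inG Q r (PQ K Q m) (fun _ i => G (s i) (t i)) (G (ta K n + x) b) *
        (w (G (ta K n + x) b) *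
        ∏ j, (mobg (g j) (G (ta K n + x) b + G (s' j) (t' j)) : ℝ)))
    (fun x => inG Q r (PQ K Q m) (fun _ i => G (s i) (t i)) (G (ta K n + x) b))
  intro v hv
  obtain ⟨a, ha⟩ : ∃ a, a = ta K n + v := ⟨_, rfl⟩
  have hcomb : ∀ u : K[X], ta K n + (v + M₁ * u) = a + M₁ * u := by
    intro u
    rw [ha, add_assoc]
  have hGM : ∀ u : K[X], G (a + M₁ * u) b = G a b + (M₁ * u) ^ 2 := by
    intro u
    rw [G, G, CharTwo.add_sq]
    ring
  simp only [hcomb]
  by_cases hres : Q ∣ G a b - r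
  swap
  · -- the residue class does not meet the block
    have h0 : ∀ u : K[X],
        inG Q r (PQ K Q m) (fun _ i => G (s i) (t i)) (G (a + M₁ * u) b) = 0 := by
      intro u
      unfold inG
      rw [if_neg]
      intro h
      apply hres
      have h1 : G (a + M₁ * u) b - r = (G a b - r) + (M₁ * u) ^ 2 := by rw [hGM]; ring
      rw [h1] at h
      have h2 : Q ∣ (M₁ * u) ^ 2 := Dvd.dvd.pow (Dvd.dvd.mul_right hQM u) two_ne_zero
      exact (dvd_add_left h2).1 h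
    have h1 : ∑ u : degreeLT K L,
        inG Q r (PQ K Q m) (fun _ i => G (s i) (t i)) (G (a + M₁ * (u : K[X])) b) = 0 :=
      Finset.sum_eq_zero fun u _ => h0 _
    have h2 : ∑ u : degreeLT K L,
        inG Q r (PQ K Q m) (fun _ i => G (s i) (t i)) (G (a + M₁ * (u : K[X])) b) *
        (w (G (a + M₁ * (u : K[X])) b) *
        ∏ j, (mobg (g j) (G (a + M₁ * (u : K[X])) b + G (s' j) (t' j)) : ℝ)) = 0 :=
      Finset.sum_eq_zero fun u _ => by rw [h0, zero_mul]
    rw [h1, h2, abs_zero, mul_zero]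
  have hresu : ∀ u : K[X], inG Q r (PQ K Q m) (fun _ i => G (s i) (t i)) (G (a + M₁ * u) b) =
      ind (PQ K Q m) (bet s t b) (a + M₁ * u) := by
    intro u
    unfold inG
    rw [if_pos, ind_bet s t (PQ K Q m) hPU]
    have h1 : G (a + M₁ * u) b - r = (G a b - r) + (M₁ * u) ^ 2 := by rw [hGM]; ring
    rw [h1]
    exact dvd_add hres (Dvd.dvd.pow (Dvd.dvd.mul_right hQM u) two_ne_zero)
  simp only [hresu]
  by_cases hbad : ∃ P ∈ PQ K Q m, P ∣ E ∧ ∃ i, P ∣ a - bet s t b P i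
  · obtain ⟨P, hP, hPE, i, hi⟩ := hbad
    have h0 : ∀ u : K[X], ind (PQ K Q m) (bet s t b) (a + M₁ * u) = 0 := by
      intro u
      unfold ind
      rw [if_neg]
      intro h
      apply h P hP i
      have h1 : a + M₁ * u - bet s t b P i = (a - bet s t b P i) + M₁ * u := by ring
      rw [h1]
      exact dvd_add hi (Dvd.dvd.mul_right (hPE.trans hEM) u)
    have h1 : ∑ u : degreeLT K L, ind (PQ K Q m) (bet s t b) (a + M₁ * (u : K[X])) = 0 :=
      Finset.sum_eq_zero fun u _ => h0 _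
    have h2 : ∑ u : degreeLT K L, ind (PQ K Q m) (bet s t b) (a + M₁ * (u : K[X])) *
        (w (G (a + M₁ * (u : K[X])) b) *
        ∏ j, (mobg (g j) (G (a + M₁ * (u : K[X])) b + G (s' j) (t' j)) : ℝ)) = 0 :=
      Finset.sum_eq_zero fun u _ => by rw [h0, zero_mul]
    rw [h1, h2, abs_zero, mul_zero]
  · obtain ⟨Ps, hPs⟩ : ∃ Ps, Ps = (PQ K Q m).filter (fun P => ¬ P ∣ E) := ⟨_, rfl⟩
    have hPsub : Ps ⊆ PQ K Q m := by rw [hPs]; exact Finset.filter_subset _ _
    have h0 : ∀ u : K[X], ind (PQ K Q m) (bet s t b) (a + M₁ * u) =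
        ind Ps (bet s t b) (a + M₁ * u) := by
      intro u
      unfold ind
      by_cases h1 : Sd Ps (bet s t b) (a + M₁ * u)
      · rw [if_pos h1, if_pos]
        intro P hP i hi
        by_cases hPE : P ∣ E
        · apply hbad
          refine ⟨P, hP, hPE, i, ?_⟩
          have h2 : a + M₁ * u - bet s t b P i = (a - bet s t b P i) + M₁ * u := by ring
          rw [h2] at hi
          exact (dvd_add_left (Dvd.dvd.mul_right (hPE.trans hEM) u)).1 hi
        · exact h1 P (by rw [hPs, Finset.mem_filter]; exact ⟨hP, hPE⟩) i hi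
      · rw [if_neg h1, if_neg]
        intro h2
        exact h1 fun P hP i => h2 P (hPsub hP) i
    simp only [h0]
    have hmon : ∀ P ∈ Ps, P.Monic := fun P hP => (hPU P (hPsub hP)).1
    have hnE : ∀ P ∈ Ps, ¬ P ∣ E := by
      intro P hP
      rw [hPs, Finset.mem_filter] at hP
      exact hP.2
    have hadm2 : ∀ P ∈ Ps, ∃ r, ∀ i, ¬ P ∣ r - bet s t b P i := fun P hP =>
      adm_bet s t (hPU P (hPsub hP)).2 b (hadm P (hPsub hP))
    obtain ⟨h1, -, h3⟩ := hB L m Ps (bet s t b) M₁ a hm hAL (by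
      intro P hP
      have hP1 := mem_PQ.1 (hPsub hP)
      refine ⟨hP1.1.1, hP1.1.2.1, hP1.1.2.2, ?_⟩
      have h2 : ¬ P ∣ M₁ := by
        rw [hM₁]
        intro h
        rcases hP1.1.2.1.prime.dvd_or_dvd h with h | h
        · exact hnE P hP h
        · exact hP1.2 h
      exact ((hP1.1.2.1.coprime_iff_not_dvd).2 h2).symm) hadm2
    have hV : vf (PQ K Q m) (fun _ i => G (s i) (t i)) ≤ vf Ps (bet s t b) := by
      rw [← vf_bet s t (PQ K Q m) hPU b]
      exact vf_mono (PQ K Q m) Ps (bet s t b) hPsub (fun P hP => (hPU P hP).1)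
        (fun P hP => adm_bet s t (hPU P hP).2 b (hadm P hP))
    have hV0 : 0 < vf Ps (bet s t b) := vf_pos Ps _ hmon hadm2
    have hqL : (0 : ℝ) < (Fintype.card K : ℝ) ^ L := pow_pos hq0 _
    have h4 := h3 (fun u => w (G (a + M₁ * u) b) *
      ∏ j, (mobg (g j) (G (a + M₁ * u) b + G (s' j) (t' j)) : ℝ))
      ((Fintype.card K : ℝ) ^ ((L : ℝ) - c * n)) (fun u => by
        rw [abs_mul]
        exact mul_le_one₀ (hw _) (abs_nonneg _) (abs_prod_mobg _ _))
      (Real.rpow_nonneg hq0.le _) (by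
        intro D r₁ L' hD hDdvd hDL hDA hr
        have hD0 : D ≠ 0 := hD.ne_zero
        have hEDd : (M₁ * D).natDegree = M₁.natDegree + D.natDegree := natDegree_mul hM0 hD0
        have hErm : M₁ * r₁ ∈ degreeLT K ((n + 1) / 2) := by
          apply hEm
          rw [mem_degreeLT]
          refine lt_of_lt_of_le hr ?_
          rw [degree_eq_natDegree hD0]
          exact_mod_cast (by omega : D.natDegree ≤ L)
        have hmem := G_mem n (v + M₁ * r₁) v' (add_mem hv hErm) hv'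
        rw [← add_assoc, ← ha, ← hb] at hmem
        have hsum : ((M₁ * D).natDegree : ℝ) + L' = N1 := by
          rw [hEDd]
          exact_mod_cast (by omega : M₁.natDegree + D.natDegree + L' = N1)
        obtain ⟨χ, hχ1⟩ := hχ (G (a + M₁ * r₁) b)
        -- the twisted character
        obtain ⟨ψ, hψ⟩ : ∃ ψ : AddChar K[X] ℝ, ∀ x, ψ x = χ (E * D * x) :=
          ⟨χ.compAddMonoidHom (AddMonoidHom.mulLeft (E * D)), fun x => rfl⟩
        have hwv : ∀ x : degreeLT K L', w (G (a + M₁ * (r₁ + D * (x : K[X]))) b) =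
            w (G (a + M₁ * r₁) b) * ψ (x : K[X]) := by
          intro x
          have h6 : G (a + M₁ * (r₁ + D * (x : K[X]))) b =
              G (a + M₁ * r₁) b + (Q * (E * D * (x : K[X]))) ^ 2 := by
            have h7 : a + M₁ * (r₁ + D * (x : K[X])) = (a + M₁ * r₁) + Q * (E * D * (x : K[X])) := by
              rw [hM₁]
              ring
            rw [h7, G, G, CharTwo.add_sq (a + M₁ * r₁)]
            ring
          rw [h6, hψ]
          apply hχ1
          by_cases hx0 : (x : K[X]) = 0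
          · rw [hx0, mul_zero, mul_zero, natDegree_zero]
            push_cast
            nlinarith
          · have h8 := natDegree_lt_of_mem x.2 hx0
            have h9 : Q * (E * D * (x : K[X])) = M₁ * D * (x : K[X]) := by
              rw [hM₁]
              ring
            rw [h9, natDegree_mul (mul_ne_zero hM0 hD0) hx0]
            have h10 : (((M₁ * D).natDegree + (x : K[X]).natDegree : ℕ) : ℝ) ≤ N1 := by
              rw [← hsum]
              push_cast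
              have h11 : ((x : K[X]).natDegree : ℝ) ≤ L' := by exact_mod_cast h8.le
              linarith
            linarith
        have h5 := hfib (M₁ * D) g L' (a + M₁ * r₁) ψ (mul_ne_zero hM0 hD0)
          (hEM.trans (dvd_mul_right _ _)) (by
            rw [hEDd, hMd]
            have h6 : (D.natDegree : ℝ) ≤ B * m := by exact_mod_cast hDA
            push_cast
            nlinarith) (by
            intro P hP1 hP2 hP3
            rw [hM₁] at hP3
            rcases hP2.prime.dvd_or_dvd hP3 with h6 | h6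
            · rcases hP2.prime.dvd_or_dvd h6 with h7 | h7
              · exact Or.inl h7
              · -- `P` divides `Q`
                have h8 : P.natDegree ≤ m := (natDegree_le_of_dvd h7 hQ).trans hQm
                by_cases h9 : ∃ i, P ∣ b + t' i
                · exact Or.inl (hEP P (mem_PU.2 ⟨hP1, hP2, h8⟩) h9)
                · right
                  intro i hi
                  exact h9 ⟨i, hi⟩
            · -- `P` is one of the primes in `Ps`
              have h7 : P ∣ ∏ P ∈ Ps, P := h6.trans hDdvd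
              obtain ⟨P', hP', h8⟩ := (hP2.prime.dvd_finsetProd_iff _).1 h7
              have h9 : P = P' := eq_of_monic_of_associated hP1 (hmon P' hP')
                (hP2.associated_of_dvd (hPU P' (hPsub hP')).2 h8)
              right
              intro i hi
              rw [h9] at hi
              have hP4 := mem_PQ.1 (hPsub hP')
              exact hnE P' hP' (hEP P' (mem_PU.2 hP4.1) ⟨i, hi⟩)) (by
            intro i
            refine ⟨(hg i).1, ?_⟩
            intro P hP1 hP2 hP3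
            exact mem_PU.2 ⟨hP1, hP2,
              (natDegree_le_of_dvd (hP3.trans (hg i).2) hQ).trans hQm⟩) hmem.1 hmem.2 (by
            rw [hsum]
            nlinarith) (by
            rw [hsum]
            linarith)
        rw [window_finsum] at h5 ⊢
        have h6 : ∑ x : degreeLT K L', w (G (a + M₁ * (r₁ + D * (x : K[X]))) b) *
            ∏ j, (mobg (g j) (G (a + M₁ * (r₁ + D * (x : K[X]))) b + G (s' j) (t' j)) : ℝ) =
            w (G (a + M₁ * r₁) b) * ∑ x : degreeLT K L', ψ (x : K[X]) * ∏ i,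
              (mobg (g i) ((a + M₁ * r₁ + s' i + M₁ * D * (x : K[X])) ^ 2 +
                X * (b + t' i) ^ 2) : ℝ) := by
          rw [Finset.mul_sum]
          refine Finset.sum_congr rfl fun x _ => ?_
          rw [hwv x, mul_assoc]
          congr 2
          refine Finset.prod_congr rfl fun j _ => ?_
          have h7 : G (a + M₁ * (r₁ + D * (x : K[X]))) b + G (s' j) (t' j) =
              (a + M₁ * r₁ + s' j + M₁ * D * (x : K[X])) ^ 2 + X * (b + t' j) ^ 2 := by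
            rw [← G_add, G]
            ring
          rw [h7]
        rw [h6, abs_mul]
        refine (mul_le_mul (hw _) h5 (abs_nonneg _) zero_le_one).trans ?_
        rw [one_mul]
        apply Real.rpow_le_rpow_of_exponent_le hq1.le
        have h6 : (L' : ℝ) ≤ L := by exact_mod_cast (by omega : L' ≤ L)
        linarith)
    have h5 : 2 * ((kA + 1 : ℝ) * Fintype.card K) ^ (B * m) *
        (Fintype.card K : ℝ) ^ ((L : ℝ) - c * n) ≤
        ε * vf Ps (bet s t b) * (Fintype.card K : ℝ) ^ L := by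
      have h6 : (Fintype.card K : ℝ) ^ ((L : ℝ) - c * n) =
          (Fintype.card K : ℝ) ^ (-(c * n)) * (Fintype.card K : ℝ) ^ L := by
        rw [sub_eq_neg_add, Real.rpow_add hq0, Real.rpow_natCast]
      rw [h6, ← mul_assoc]
      apply mul_le_mul_of_nonneg_right _ hqL.le
      exact hsmall.trans (mul_le_mul_of_nonneg_left hV hε.le)
    obtain ⟨Sg, hSg⟩ : ∃ Sg, Sg = ∑ u : degreeLT K L, ind Ps (bet s t b) (a + M₁ * (u : K[X])) :=
      ⟨_, rfl⟩
    rw [← hSg] at h1 ⊢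
    obtain ⟨W, hW⟩ : ∃ W, W = vf Ps (bet s t b) * (Fintype.card K : ℝ) ^ L := ⟨_, rfl⟩
    have hW0 : 0 < W := by rw [hW]; positivity
    rw [mul_assoc, ← hW] at h1
    rw [mul_assoc ε, ← hW] at h4 h5
    refine h4.trans ?_
    have h6 : W ≤ 2 * Sg := by nlinarith
    nlinarith

end block

/-- the bound for fixed sets `A` and `S` -/
theorem parG1 (hf : S_fib) (hs : S_sw) (hl : S_lowG) (K : Type) [Field K] [Fintype K] [CharP K 2]
    (k : ℕ) (Q : K[X]) (ε : ℝ) (hQ : Q ≠ 0) (hε : 0 < ε) (A S : Finset (Fin k))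
    (hS : S.Nonempty) :
    ∃ κ : ℝ, 0 < κ ∧ ∃ m₀ n₀ : ℕ, ∀ n : ℕ, n₀ ≤ n → ∀ m : ℕ, m₀ ≤ m → (m : ℝ) ≤ κ * n →
      ∀ (α g : Fin k → K[X]) (r : K[X]), Function.Injective α →
      (∀ i, (α i).natDegree < n) → (∀ i, (g i).Monic ∧ g i ∣ Q) →
      ∀ w : K[X] → ℝ, (∀ f, |w f| ≤ 1) →
        (∀ f, ∃ χ : AddChar K[X] ℝ, ∀ u, (2 * (Q * u).natDegree : ℝ) ≤ (1 - κ) * n →
          w (f + (Q * u) ^ 2) = w f * χ u) →
        |∑ f ∈ SfsG K α A Q r n m, w f * ∏ i ∈ S, (mobg (g i) (f + α i) : ℝ)| ≤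
          ε * (SfsG K α A Q r n m).card := by
  have hq1 : (1 : ℝ) < Fintype.card K := by exact_mod_cast Fintype.one_lt_card
  have hq0 : (0 : ℝ) < Fintype.card K := by linarith
  have hq2 : 2 ≤ Fintype.card K := Fintype.one_lt_card
  have hkS1 : 1 ≤ S.card := Finset.card_pos.2 hS
  obtain ⟨eA, -, hallA, -⟩ := reidx A
  obtain ⟨e, he, -, hprod⟩ := reidx S
  obtain ⟨ε₁, hε₁⟩ : ∃ ε₁ : ℝ, ε₁ = min ε 1 / 8 := ⟨_, rfl⟩
  have hε₁0 : 0 < ε₁ := by
    rw [hε₁]
    have : 0 < min ε 1 := lt_min hε one_pos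
    linarith
  have hε₁8 : ε₁ ≤ 1 / 8 := by
    rw [hε₁]
    have : min ε 1 ≤ 1 := min_le_right _ _
    linarith
  have hε₁ε : 8 * ε₁ ≤ ε := by
    rw [hε₁]
    have : min ε 1 ≤ ε := min_le_left _ _
    linarith
  obtain ⟨B, hB⟩ := sw1 hs K A.card ε₁ hε₁0
  have hBC : SWC K A.card ε₁ B := hB
  obtain ⟨q', hq'⟩ : ∃ q' : ℝ, q' = (Fintype.card K : ℝ) ^ Q.natDegree := ⟨_, rfl⟩
  have hq'0 : 0 < q' := by rw [hq']; exact pow_pos hq0 _
  have hq'1 : 1 ≤ q' := by rw [hq']; exact one_le_pow₀ hq1.le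
  obtain ⟨κ, θ, c, hκ, hκ8, hθ, hc, n₁, hfib⟩ := hf K S.card (ε / (4 * q')) hkS1 (by positivity)
  obtain ⟨c', hc', B', hlow⟩ := hl K k Q hQ
  obtain ⟨δ, hδ⟩ : ∃ δ : ℝ, δ = ε₁ * c' / (1 + ε₁) := ⟨_, rfl⟩
  have hδ0 : 0 < δ := by rw [hδ]; positivity
  obtain ⟨κ₀, hκ₀, n₂, has⟩ := asym (Fintype.card K) A.card B c δ hq2 hc hδ0
  have hA1 : (0 : ℝ) < B + 1 := by positivity
  have hA2 : (0 : ℝ) < B' + 1 := by positivity
  obtain ⟨κf, hκf⟩ : ∃ κf : ℝ, κf = min (min κ₀ θ) (min (κ / (B + 1)) (1 / (B' + 1))) := ⟨_, rfl⟩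
  have hκf0 : 0 < κf := by
    rw [hκf]
    exact lt_min (lt_min hκ₀ hθ) (lt_min (by positivity) (by positivity))
  have hκf1 : κf ≤ κ₀ := by rw [hκf]; exact (min_le_left _ _).trans (min_le_left _ _)
  have hκf2 : κf ≤ θ := by rw [hκf]; exact (min_le_left _ _).trans (min_le_right _ _)
  have hκf3 : κf * (B + 1) ≤ κ := by
    rw [← le_div_iff₀ hA1, hκf]
    exact (min_le_right _ _).trans (min_le_left _ _)
  have hκf4 : κf * (B' + 1) ≤ 1 := by
    rw [← le_div_iff₀ hA2, hκf]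
    exact (min_le_right _ _).trans (min_le_right _ _)
  have hκfκ : κf ≤ κ := by
    have hB0 : (0 : ℝ) ≤ B := Nat.cast_nonneg _
    nlinarith
  refine ⟨κf, hκf0, k + 1 + Q.natDegree, n₁ + n₂ + ⌈1 / κ⌉₊ + B' + Q.natDegree + 1, ?_⟩
  intro n hn m hm hmn α g r hα hαd hg w hw hχ
  have hn0 : (0 : ℝ) ≤ n := Nat.cast_nonneg _
  have hm0 : (0 : ℝ) ≤ m := Nat.cast_nonneg _
  have hm1 : 1 ≤ m := by omega
  have hQm : Q.natDegree ≤ m := by omega
  have hκn : 1 ≤ κ * n := by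
    have h1 : (1 / κ : ℝ) ≤ n := by
      refine (Nat.le_ceil _).trans ?_
      exact_mod_cast (by omega : ⌈1 / κ⌉₊ ≤ n)
    rw [div_le_iff₀ hκ] at h1
    linarith
  have hmκ₀ : (m : ℝ) ≤ κ₀ * n := hmn.trans (mul_le_mul_of_nonneg_right hκf1 hn0)
  have hmθ : (m : ℝ) ≤ θ * n := hmn.trans (mul_le_mul_of_nonneg_right hκf2 hn0)
  have hBm : (B * m + Q.natDegree : ℝ) ≤ κ * n := by
    have h1 : (B + 1 : ℝ) * m ≤ (B + 1) * (κf * n) := mul_le_mul_of_nonneg_left hmn hA1.le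
    have h2 : κf * (B + 1) * n ≤ κ * n := mul_le_mul_of_nonneg_right hκf3 hn0
    have h3 : (Q.natDegree : ℝ) ≤ m := by exact_mod_cast hQm
    nlinarith
  have hB'm : B' * m ≤ n := by
    have h1 : (B' + 1 : ℝ) * m ≤ (B' + 1) * (κf * n) := mul_le_mul_of_nonneg_left hmn hA2.le
    have h2 : κf * (B' + 1) * n ≤ 1 * n := mul_le_mul_of_nonneg_right hκf4 hn0
    have h3 : ((B' * m : ℕ) : ℝ) ≤ n := by
      push_cast
      nlinarith
    exact_mod_cast h3
  have hBn : B * m + Q.natDegree ≤ n := by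
    have h3 : ((B * m + Q.natDegree : ℕ) : ℝ) ≤ n := by
      push_cast
      nlinarith
    exact_mod_cast h3
  have hBn' : B * m ≤ n - Q.natDegree := by omega
  have hQn : Q.natDegree < n := by omega
  rcases (SfsG K α A Q r n m).eq_empty_or_nonempty with hemp | hne
  · rw [hemp]
    simp
  choose s t hst using fun i => G_surj (α i)
  have hαe : (fun (_ : K[X]) j => α (eA j)) = fun _ j => G ((s ∘ eA) j) ((t ∘ eA) j) :=
    funext fun _ => funext fun j => (hst (eA j)).symm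
  -- admissible
  have hadm : ∀ P ∈ PQ K Q m, ∃ r, ∀ j, ¬ P ∣ r - G ((s ∘ eA) j) ((t ∘ eA) j) := by
    intro P hP
    obtain ⟨f, hf⟩ := hne
    unfold SfsG at hf
    rw [Finset.mem_filter] at hf
    have h1 := (sift_iff α A eA hallA Q m f).1 hf.2.2
    refine ⟨f, fun j hj => h1 P hP j ?_⟩
    show P ∣ f - α (eA j)
    rw [← hst (eA j)]
    exact hj
  have hadm2 : ∀ P : K[X], P.Monic → Irreducible P → ¬ P ∣ Q →
      ∃ x : K[X], ∀ i ∈ A, ¬ P ∣ x + α i := by
    intro P hP1 hP2 hP3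
    by_cases hPm : P.natDegree ≤ m
    · obtain ⟨r, hr⟩ := hadm P (mem_PQ.2 ⟨⟨hP1, hP2, hPm⟩, hP3⟩)
      refine ⟨r, (hallA _).2 fun j hj => hr j ?_⟩
      rw [CharTwo.sub_eq_add]
      show P ∣ r + G (s (eA j)) (t (eA j))
      rw [hst (eA j)]
      exact hj
    · obtain ⟨x, hx⟩ := adm_big α hP1 (by
        have h1 : P.natDegree < 2 ^ P.natDegree := Nat.lt_two_pow_self
        have h2 : 2 ^ P.natDegree ≤ Fintype.card K ^ P.natDegree := Nat.pow_le_pow_left hq2 _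
        omega)
      exact ⟨x, fun i _ => hx i⟩
  have hPU : ∀ P ∈ PQ K Q m, P.Monic ∧ Irreducible P := fun P hP =>
    ⟨(mem_PQ.1 hP).1.1, (mem_PQ.1 hP).1.2.1⟩
  have hPU1 : ∀ P ∈ PQ K Q m, P.Monic ∧ Irreducible P ∧ P.natDegree ≤ m ∧
      IsCoprime (1 : K[X]) P :=
    fun P hP => ⟨(mem_PQ.1 hP).1.1, (mem_PQ.1 hP).1.2.1, (mem_PQ.1 hP).1.2.2, isCoprime_one_left⟩
  have hPU2 : ∀ P ∈ PQ K Q m, P.Monic ∧ Irreducible P ∧ P.natDegree ≤ m ∧ IsCoprime Q P :=
    fun P hP => ⟨(mem_PQ.1 hP).1.1, (mem_PQ.1 hP).1.2.1, (mem_PQ.1 hP).1.2.2,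
      (((mem_PQ.1 hP).1.2.1.coprime_iff_not_dvd).2 (mem_PQ.1 hP).2).symm⟩
  obtain ⟨V, hV⟩ : ∃ V, V = vf (PQ K Q m) (fun _ j => G ((s ∘ eA) j) ((t ∘ eA) j)) := ⟨_, rfl⟩
  have hV0 : 0 < V := by
    rw [hV]
    exact vf_pos _ _ (fun P hP => (hPU P hP).1) hadm
  obtain ⟨Z, hZ⟩ : ∃ Z : ℝ, Z = (SfsG K α A Q r n m).card := ⟨_, rfl⟩
  have hZ0 : 0 ≤ Z := by rw [hZ]; exact Nat.cast_nonneg _
  -- the global sieve
  obtain ⟨a₀, ha₀⟩ := sum_res n Q r hQ hQn
  have hglob := hB (n - Q.natDegree) m (PQ K Q m) (fun _ j => G ((s ∘ eA) j) ((t ∘ eA) j)) Q a₀ hm1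
    hBn' hPU2 hadm
  have hZ1 : Z = ∑ u : degreeLT K (n - Q.natDegree),
      ind (PQ K Q m) (fun _ j => G ((s ∘ eA) j) ((t ∘ eA) j)) (a₀ + Q * (u : K[X])) := by
    rw [hZ, card_SfsG α A eA hallA, hαe, ← ha₀]
    rfl
  obtain ⟨qn, hqn'⟩ : ∃ qn : ℝ, qn = (Fintype.card K : ℝ) ^ (n - Q.natDegree) := ⟨_, rfl⟩
  have hqn0 : 0 < qn := by rw [hqn']; exact pow_pos hq0 _
  have hqnq : (Fintype.card K : ℝ) ^ n = qn * q' := by
    rw [hqn', hq', ← pow_add]
    congr 1
    omega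
  have hZlo : (1 - ε₁) * V * qn ≤ Z := by rw [hZ1, hV, hqn']; exact hglob.1
  have hZhi : Z ≤ (1 + ε₁) * V * qn := by rw [hZ1, hV, hqn']; exact hglob.2.1
  have hlow1 : c' * (Fintype.card K : ℝ) ^ n / (m : ℝ) ^ A.card ≤ Z := by
    rw [hZ]
    exact (hlow n m hm1 hB'm (by omega) α A r hα hαd hadm2).1
  have hmk : (0 : ℝ) < (m : ℝ) ^ A.card := by
    have : (0 : ℝ) < m := by exact_mod_cast hm1
    positivity
  have hVlow : δ ≤ ε₁ * V * (m : ℝ) ^ A.card := by
    have h1 : c' * (qn * q') / (m : ℝ) ^ A.card ≤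
        (1 + ε₁) * V * qn := by rw [← hqnq]; exact hlow1.trans hZhi
    rw [div_le_iff₀ hmk] at h1
    have h0 : c' * qn ≤ c' * (qn * q') := by
      apply mul_le_mul_of_nonneg_left _ hc'.le
      exact le_mul_of_one_le_right hqn0.le hq'1
    have h2 : c' * qn ≤
        ((1 + ε₁) * V * (m : ℝ) ^ A.card) * qn := by linarith
    have h3 := le_of_mul_le_mul_right h2 hqn0
    rw [hδ, div_le_iff₀ (by linarith)]
    nlinarith
  have hsmall : 2 * ((A.card + 1 : ℝ) * Fintype.card K) ^ (B * m) *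
      (Fintype.card K : ℝ) ^ (-(c * n)) ≤
      ε₁ * vf (PQ K Q m) (fun _ j => G ((s ∘ eA) j) ((t ∘ eA) j)) := by
    rw [← hV]
    have h1 := (has n (by omega) m hmκ₀).trans hVlow
    exact le_of_mul_le_mul_right h1 hmk
  -- the fibres
  obtain ⟨Exc, hExc, hExcn, hgood⟩ := hfib n (by omega) (s ∘ e) (t ∘ e) {P : K[X] | P ∈ PU K m}
    (by
      intro j j' h
      apply he
      apply hα
      rw [← hst, ← hst]
      have h1 := Prod.ext_iff.1 h
      show G (s (e j)) (t (e j)) = G (s (e j')) (t (e j'))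
      have h2 : s (e j) = s (e j') := h1.1
      have h3 : t (e j) = t (e j') := h1.2
      rw [h2, h3])
    (by
      intro j
      have h1 := hαd (e j)
      rw [← hst] at h1
      exact h1)
    ((mass_le m n).trans hmθ)
  obtain ⟨T, hT⟩ : ∃ T : degreeLT K (n / 2) → ℝ, T = fun v' : degreeLT K (n / 2) =>
      ∑ v : degreeLT K ((n + 1) / 2),
      inG Q r (PQ K Q m) (fun _ j => G ((s ∘ eA) j) ((t ∘ eA) j))
        (G (ta K n + (v : K[X])) (tb K n + (v' : K[X]))) *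
        (w (G (ta K n + (v : K[X])) (tb K n + (v' : K[X]))) *
        ∏ j, (mobg (g (e j)) (G (ta K n + (v : K[X])) (tb K n + (v' : K[X])) +
          G ((s ∘ e) j) ((t ∘ e) j)) : ℝ)) :=
    ⟨_, rfl⟩
  obtain ⟨U, hU⟩ : ∃ U : degreeLT K (n / 2) → ℝ, U = fun v' : degreeLT K (n / 2) =>
      ∑ v : degreeLT K ((n + 1) / 2),
      inG Q r (PQ K Q m) (fun _ j => G ((s ∘ eA) j) ((t ∘ eA) j))
        (G (ta K n + (v : K[X])) (tb K n + (v' : K[X]))) :=
    ⟨_, rfl⟩
  have hZU : Z = ∑ v', U v' := by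
    rw [hZ, card_SfsG α A eA hallA, sum_Mn, sum_MD, hU, hαe]
  have hsumT : ∑ f ∈ SfsG K α A Q r n m, w f * ∏ i ∈ S, (mobg (g i) (f + α i) : ℝ) =
      ∑ v', T v' := by
    rw [sum_SfsG α A eA hallA, sum_Mn, sum_MD, hT]
    refine Finset.sum_congr rfl fun v' _ => Finset.sum_congr rfl fun v _ => ?_
    rw [hprod, hαe]
    congr 2
    refine Finset.prod_congr rfl fun j _ => ?_
    rw [← hst (e j)]
    rfl
  have hTU : ∀ v', |T v'| ≤ U v' := by
    intro v'
    rw [hT, hU]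
    refine (Finset.abs_sum_le_sum_abs _ _).trans (Finset.sum_le_sum fun v _ => ?_)
    rw [abs_mul, abs_of_nonneg (inG_nonneg _ _ _ _ _)]
    refine mul_le_of_le_one_right (inG_nonneg _ _ _ _ _) ?_
    rw [abs_mul]
    exact mul_le_one₀ (hw _) (abs_nonneg _) (abs_prod_mobg _ _)
  obtain ⟨N, hN⟩ : ∃ N, N = (n + 1) / 2 := ⟨_, rfl⟩
  have hUle : ∀ v', U v' ≤ (1 + ε₁) * V * (Fintype.card K : ℝ) ^ N := by
    intro v'
    have hAN : B * m ≤ N := by
      have h3 : ((B * m : ℕ) : ℝ) ≤ κ * n := by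
        push_cast
        have : (0 : ℝ) ≤ Q.natDegree := Nat.cast_nonneg _
        linarith
      have h4 : (8 : ℝ) * ((B * m : ℕ) : ℝ) ≤ n := by nlinarith
      have h5 : 8 * (B * m) ≤ n := by exact_mod_cast h4
      omega
    have h1 := (hB N m (PQ K Q m) (bet (s ∘ eA) (t ∘ eA) (tb K n + (v' : K[X]))) 1 (ta K n) hm1 hAN
      hPU1 (fun P hP => adm_bet (s ∘ eA) (t ∘ eA) (hPU P hP).2 _ (hadm P hP))).2.1
    rw [vf_bet (s ∘ eA) (t ∘ eA) (PQ K Q m) hPU, ← hV] at h1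
    rw [hU, hN]
    rw [hN] at h1
    refine le_trans (Finset.sum_le_sum fun v _ => inG_le _ _ _ _ _) ?_
    refine le_trans (le_of_eq ?_) h1
    refine Finset.sum_congr rfl fun v _ => ?_
    rw [one_mul, ind_bet (s ∘ eA) (t ∘ eA) (PQ K Q m) hPU]
  have hχ2 : ∀ f, ∃ χ : AddChar K[X] ℝ, ∀ u, (2 * (Q * u).natDegree : ℝ) ≤ (1 - κ) * n →
      w (f + (Q * u) ^ 2) = w f * χ u := by
    intro f
    obtain ⟨χ, h1⟩ := hχ f
    refine ⟨χ, fun u hu => h1 u (hu.trans ?_)⟩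
    exact mul_le_mul_of_nonneg_right (by linarith) hn0
  have hTgood : ∀ v' : degreeLT K (n / 2), tb K n + (v' : K[X]) ∉ Exc → |T v'| ≤ 4 * ε₁ * U v' := by
    intro v' hv'
    obtain ⟨E, hE, hEd, hEP, hEfib⟩ := hgood (tb K n + (v' : K[X])) (mem_Fb n v') hv'
    rw [hT, hU]
    exact fibreG hε₁0 hε₁8 hBC n m hm1 Q r hQ hQm (s ∘ eA) (t ∘ eA) (s ∘ e) (t ∘ e) (g ∘ e)
      (fun j => hg (e j)) κ c hκ8 w hw hχ2 hadm (v' : K[X]) v'.2 _ rfl E hE hEd
      (fun P hP hj => hEP P hP (mem_PU.1 hP).1 (mem_PU.1 hP).2.1 hj) hEfib hBm hκn hsmall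
  have hqN : (0 : ℝ) < (Fintype.card K : ℝ) ^ N := pow_pos hq0 _
  have hall : ∀ v' : degreeLT K (n / 2), |T v'| ≤ 4 * ε₁ * U v' +
      (if tb K n + (v' : K[X]) ∈ Exc then (1 + ε₁) * V * (Fintype.card K : ℝ) ^ N else 0) := by
    intro v'
    have hU0 : 0 ≤ U v' := (abs_nonneg _).trans (hTU v')
    split_ifs with h
    · have h1 := (hTU v').trans (hUle v')
      have h2 : 0 ≤ 4 * ε₁ * U v' := by positivity
      linarith
    · rw [add_zero]
      exact hTgood v' h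
  rw [hsumT, ← hZ]
  refine (Finset.abs_sum_le_sum_abs _ _).trans ?_
  refine (Finset.sum_le_sum (fun v' _ => hall v')).trans ?_
  rw [Finset.sum_add_distrib, ← Finset.mul_sum, ← hZU, ← Finset.sum_filter, Finset.sum_const,
    nsmul_eq_mul]
  have hcard : (((Finset.univ : Finset (degreeLT K (n / 2))).filter
      (fun v' : degreeLT K (n / 2) => tb K n + (v' : K[X]) ∈ Exc)).card : ℝ) ≤
      ε / (4 * q') * (Fintype.card K : ℝ) ^ (n / 2) := by
    refine le_trans ?_ hExcn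
    exact_mod_cast card_exc n Exc ((Fb_finite n).subset hExc)
  have hnn : qn * q' = (Fintype.card K : ℝ) ^ (n / 2) * (Fintype.card K : ℝ) ^ N := by
    rw [← hqnq, ← pow_add]
    congr 1
    omega
  have h1 : (((Finset.univ : Finset (degreeLT K (n / 2))).filter
      (fun v' : degreeLT K (n / 2) => tb K n + (v' : K[X]) ∈ Exc)).card : ℝ) *
      ((1 + ε₁) * V * (Fintype.card K : ℝ) ^ N) ≤
      ε / (4 * q') * (Fintype.card K : ℝ) ^ (n / 2) * ((1 + ε₁) * V * (Fintype.card K : ℝ) ^ N) :=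
    mul_le_mul_of_nonneg_right hcard (by positivity)
  have h2 : ε / (4 * q') * (Fintype.card K : ℝ) ^ (n / 2) *
      ((1 + ε₁) * V * (Fintype.card K : ℝ) ^ N) = ε / 4 * ((1 + ε₁) * (V * qn)) := by
    have h3 : ε / (4 * q') * (Fintype.card K : ℝ) ^ (n / 2) *
      ((1 + ε₁) * V * (Fintype.card K : ℝ) ^ N) = ε / (4 * q') * ((1 + ε₁) * V) *
      ((Fintype.card K : ℝ) ^ (n / 2) * (Fintype.card K : ℝ) ^ N) := by ring
    rw [h3, ← hnn]
    field_simp
  obtain ⟨W, hW⟩ : ∃ W, W = V * qn := ⟨_, rfl⟩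
  have hW0 : 0 < W := by rw [hW]; positivity
  rw [mul_assoc, ← hW] at hZlo
  rw [h2, ← hW] at h1
  have h3 : (1 + ε₁) * W ≤ 2 * Z := by nlinarith
  have h4 : ε / 4 * ((1 + ε₁) * W) ≤ ε / 4 * (2 * Z) := mul_le_mul_of_nonneg_left h3 (by linarith)
  have h5 : 4 * ε₁ * Z ≤ ε / 2 * Z := mul_le_mul_of_nonneg_right (by linarith) hZ0
  linarith

/-- **Task PARG.** -/
theorem parG (hf : S_fib) (hs : S_sw) (hl : S_lowG) : S_parG := by
  intro K _ _ _ k Q ε hQ hε
  have h := fun AS : Finset (Fin k) × {S : Finset (Fin k) // S.Nonempty} =>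
    parG1 hf hs hl K k Q ε hQ hε AS.1 AS.2.1 AS.2.2
  choose κ hκ m₀ n₀ hpar using h
  obtain ⟨κ', hκ'0, hκ'⟩ : ∃ κ' : ℝ, 0 < κ' ∧ ∀ AS, κ' ≤ κ AS := by
    rcases isEmpty_or_nonempty (Finset (Fin k) × {S : Finset (Fin k) // S.Nonempty}) with
      hemp | hne
    · exact ⟨1, one_pos, fun AS => (hemp.false AS).elim⟩
    · obtain ⟨S₀, hS₀⟩ := Finite.exists_min κ
      exact ⟨κ S₀, hκ S₀, hS₀⟩
  refine ⟨κ', hκ'0, ∑ AS, m₀ AS, ∑ AS, n₀ AS, ?_⟩
  intro n hn m hm hmn α g A S r hα hαd hg hS w hw hχ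
  have hn0 : (0 : ℝ) ≤ n := Nat.cast_nonneg _
  have h1 : m₀ (A, ⟨S, hS⟩) ≤ ∑ AS, m₀ AS :=
    Finset.single_le_sum (f := m₀) (fun _ _ => Nat.zero_le _) (Finset.mem_univ _)
  have h2 : n₀ (A, ⟨S, hS⟩) ≤ ∑ AS, n₀ AS :=
    Finset.single_le_sum (f := n₀) (fun _ _ => Nat.zero_le _) (Finset.mem_univ _)
  refine hpar (A, ⟨S, hS⟩) n (h2.trans hn) m (h1.trans hm)
    (hmn.trans (mul_le_mul_of_nonneg_right (hκ' _) hn0)) α g r hα hαd hg w hw ?_
  intro f
  obtain ⟨χ, h3⟩ := hχ f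
  refine ⟨χ, fun u hu => h3 u (hu.trans ?_)⟩
  exact mul_le_mul_of_nonneg_right (by linarith [hκ' (A, ⟨S, hS⟩)]) hn0

end Pool.Agent.H721.ParG
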